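import Pool.Agent.Helper67.NX2.Defs

/-! Project NX2, module A2: dilation of systems. -/

set_option autoImplicit false

open Finset
open scoped BigOperators ComplexConjugate

namespace Pool.Agent.Helper67.NX2

open Pool.Agent.Helper57.NX

noncomputable section

variable {m : ℕ}

theorem dil87_Dpos (S : Sys m) (c : Fin m → ℝ) (q r0 u' T' : ℕ) (hu : 1 ≤ u') :
    0 < (dil S c q r0 u' T').D := by
  have h1 : (1 : ℝ) ≤ (u' : ℝ) := by exact_mod_cast hu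
  have h2 : (0 : ℝ) ≤ (T' : ℝ) := Nat.cast_nonneg _
  show 0 < ((u' : ℝ) + T') / 2
  linarith

theorem dil_t (S : Sys m) (c : Fin m → ℝ) (q r0 u' T' k : ℕ) (hq : 1 ≤ q) (hu : 1 ≤ u')
    (hD : 0 < S.D) : (q * (dil S c q r0 u' T').D / S.D) * (dil S c q r0 u' T').t k =
      S.t (q * k + r0) := by
  have hD' := dil87_Dpos S c q r0 u' T' hu
  have hq' : (0 : ℝ) < (q : ℝ) := by exact_mod_cast hq
  have e1 : (dil S c q r0 u' T').ρ = (r0 + S.ρ) / q := rfl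
  unfold Sys.t
  rw [e1]
  push_cast
  field_simp
  ring

theorem dil87_tnonneg (S : Sys m) (c : Fin m → ℝ) (q r0 u' T' k : ℕ) (hu : 1 ≤ u')
    (hρ : 0 ≤ S.ρ) : 0 ≤ (dil S c q r0 u' T').t k := by
  have hD' := dil87_Dpos S c q r0 u' T' hu
  have e1 : (dil S c q r0 u' T').ρ = (r0 + S.ρ) / q := rfl
  unfold Sys.t
  rw [e1]
  positivity

/-- `P_i t^(c_i)` is unchanged -/
theorem dil_Pt (S : Sys m) (c : Fin m → ℝ) (q r0 u' T' k : ℕ) (hq : 1 ≤ q) (hu : 1 ≤ u')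
    (hD : 0 < S.D) (hρ : 0 ≤ S.ρ) (i : Fin m) :
    (dil S c q r0 u' T').P i * (dil S c q r0 u' T').t k ^ (c i) =
      S.P i * S.t (q * k + r0) ^ (c i) := by
  have hD' := dil87_Dpos S c q r0 u' T' hu
  have hq' : (0 : ℝ) < (q : ℝ) := by exact_mod_cast hq
  have e2 : (dil S c q r0 u' T').P i = S.P i * (q * (dil S c q r0 u' T').D / S.D) ^ (c i) := rfl
  rw [← dil_t S c q r0 u' T' k hq hu hD, e2,
    Real.mul_rpow (by positivity) (dil87_tnonneg S c q r0 u' T' k hu hρ)]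
  ring

theorem dil_a (S : Sys m) (c : Fin m → ℝ) (q r0 u' T' k : ℕ) (hq : 1 ≤ q) (hu : 1 ≤ u')
    (hD : 0 < S.D) (hρ : 0 ≤ S.ρ) (i : Fin m) :
    (dil S c q r0 u' T').a c i k = S.a c i (q * k + r0) := by
  unfold Sys.a
  rw [dil_Pt S c q r0 u' T' k hq hu hD hρ i]

/-- `D^a ≤ D'^b` if `D^(1-s) ≤ D'` and `a ≤ b (1-s)` -/
theorem dil87_pow {D D' s a b : ℝ} (hD : 1 ≤ D) (h : D ^ (1 - s) ≤ D') (hb : 0 ≤ b)
    (hab : a ≤ b * (1 - s)) : D ^ a ≤ D' ^ b := by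
  have h0 : 0 ≤ D := by linarith
  calc D ^ a ≤ D ^ ((1 - s) * b) := Real.rpow_le_rpow_of_exponent_le hD (by linarith [mul_comm b (1 - s)])
    _ = (D ^ (1 - s)) ^ b := Real.rpow_mul h0 _ _
    _ ≤ D' ^ b := Real.rpow_le_rpow (Real.rpow_nonneg h0 _) h hb

/-- Dilated systems are good; the progression `q j + r0`, `u' ≤ j < u' + T'`, lies in `S.I`. -/
theorem IG.dil (c : Fin m → ℝ) (hc0 : ∀ i, 0 < c i) (x' : ℝ) (hx' : 0 < x') :
    ∃ x0 : ℝ, 0 < x0 ∧ ∃ σ : ℝ, 0 < σ ∧ ∃ D0 : ℝ, ∀ (S : Sys m) (N lam : ℕ), D0 ≤ S.D →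
    IG S c N x0 lam → ∀ q r0 u' T' : ℕ, 1 ≤ q → (q : ℝ) ≤ S.D ^ σ → r0 < q →
    S.u ≤ q * u' + r0 → q * (u' + T') + r0 ≤ S.u + S.T → T' ≤ u' →
    S.D ^ (1 - x' / 2) ≤ T' →
    IG (dil S c q r0 u' T') c N x' (lam * q) ∧
      S.D / (4 * q) ≤ (dil S c q r0 u' T').D ∧ (dil S c q r0 u' T').D ≤ S.D / q ∧
      (∀ i, S.P i * 4 ^ (-c i) ≤ (dil S c q r0 u' T').P i ∧
        (dil S c q r0 u' T').P i ≤ S.P i) := by
  -- the constants
  obtain ⟨M, hM1, hM⟩ : ∃ M : ℝ, 1 ≤ M ∧ ∀ i, c i ≤ M := by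
    refine ⟨1 + ∑ i, c i, ?_, ?_⟩
    · have : 0 ≤ ∑ i, c i := Finset.sum_nonneg fun i _ => (hc0 i).le
      linarith
    · intro i
      have := Finset.single_le_sum (f := c) (fun i _ => (hc0 i).le) (Finset.mem_univ i)
      linarith
  obtain ⟨x0, hx0, hx0a, hx0b⟩ : ∃ x0 : ℝ, 0 < x0 ∧ x0 ≤ x' / 4 ∧ x0 ≤ 1 / 8 :=
    ⟨min (x' / 4) (1 / 8), lt_min (by linarith) (by norm_num), min_le_left _ _, min_le_right _ _⟩
  obtain ⟨σ, hσ, hσa, hσb⟩ : ∃ σ : ℝ, 0 < σ ∧ σ * M ≤ x' / 40 ∧ σ ≤ 1 / 40 := by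
    refine ⟨min (x' / (40 * M)) (1 / 40), lt_min (by positivity) (by norm_num), ?_,
      min_le_right _ _⟩
    have h1 : min (x' / (40 * M)) (1 / 40) ≤ x' / (40 * M) := min_le_left _ _
    have h2 : x' / (40 * M) * M = x' / 40 := by
      field_simp
    calc min (x' / (40 * M)) (1 / 40) * M ≤ x' / (40 * M) * M :=
          mul_le_mul_of_nonneg_right h1 (by linarith)
      _ = x' / 40 := h2
  have hσx : σ ≤ x' / 40 := by nlinarith
  refine ⟨x0, hx0, σ, hσ, max 1 (4 ^ (1 / σ)), ?_⟩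
  intro S N lam hSD hIG q r0 u' T' hq hqσ hr0 hu hT hTu hT'
  have hD1 : 1 ≤ S.D := le_trans (le_max_left _ _) hSD
  have hD0 : 0 < S.D := by linarith
  have hD4 : (4 : ℝ) ≤ S.D ^ σ := by
    have h1 : (4 : ℝ) ^ (1 / σ) ≤ S.D := le_trans (le_max_right _ _) hSD
    calc (4 : ℝ) = ((4 : ℝ) ^ (1 / σ)) ^ σ := by
          rw [← Real.rpow_mul (by norm_num), one_div, inv_mul_cancel₀ hσ.ne', Real.rpow_one]
      _ ≤ S.D ^ σ := Real.rpow_le_rpow (by positivity) h1 hσ.le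
  have hq1 : (1 : ℝ) ≤ (q : ℝ) := by exact_mod_cast hq
  have hq0 : (0 : ℝ) < (q : ℝ) := by linarith
  have hT1 : 1 ≤ T' := by
    have : (0 : ℝ) < (T' : ℝ) := lt_of_lt_of_le (Real.rpow_pos_of_pos hD0 _) hT'
    exact_mod_cast this
  have hu1 : 1 ≤ u' := le_trans hT1 hTu
  have hg := hIG.good
  have hTu' : (T' : ℝ) ≤ (u' : ℝ) := by exact_mod_cast hTu
  have hT1' : (1 : ℝ) ≤ (T' : ℝ) := by exact_mod_cast hT1
  have hu1' : (1 : ℝ) ≤ (u' : ℝ) := by exact_mod_cast hu1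
  -- the new scale
  have eD : (Pool.Agent.Helper67.NX2.dil S c q r0 u' T').D = ((u' : ℝ) + T') / 2 := rfl
  obtain ⟨D', hD'⟩ : ∃ D' : ℝ, D' = ((u' : ℝ) + T') / 2 := ⟨_, rfl⟩
  have hD'pos : 0 < D' := by rw [hD']; linarith
  have hD'1 : 1 ≤ D' := by rw [hD']; linarith
  have hr0' : (r0 : ℝ) + 1 ≤ q := by exact_mod_cast hr0
  have hqD' : q * D' ≤ S.D := by
    have h1 : (q : ℝ) * ((u' : ℝ) + T') + r0 ≤ S.u + S.T := by exact_mod_cast hT
    have h2 := hg.u2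
    have h3 : (0 : ℝ) ≤ r0 := Nat.cast_nonneg _
    rw [hD']
    linarith
  have hup : D' ≤ S.D / q := by
    rw [le_div_iff₀ hq0]; linarith
  have hlow4 : S.D ≤ 4 * (q * D') := by
    have h1 : (S.u : ℝ) ≤ q * u' + r0 := by exact_mod_cast hu
    have h2 := hg.u1
    have h3 : (q : ℝ) ≤ q * u' := by nlinarith
    have h4 : (q : ℝ) * u' ≤ q * (2 * D') := by
      apply mul_le_mul_of_nonneg_left _ hq0.le
      rw [hD']; linarith
    linarith
  have hlow : S.D / (4 * q) ≤ D' := by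
    rw [div_le_iff₀ (by positivity)]; linarith
  have hD'D : D' ≤ S.D := by nlinarith
  have hpow : S.D ^ (1 - 2 * σ) ≤ D' := by
    have h1 : S.D ^ (1 - 2 * σ) * (S.D ^ σ * S.D ^ σ) = S.D := by
      rw [← Real.rpow_add hD0, ← Real.rpow_add hD0]
      have : 1 - 2 * σ + (σ + σ) = 1 := by ring
      rw [this, Real.rpow_one]
    have h2 : 0 < S.D ^ σ := Real.rpow_pos_of_pos hD0 _
    have h3 : 4 * (q : ℝ) ≤ S.D ^ σ * S.D ^ σ := by
      calc 4 * (q : ℝ) ≤ S.D ^ σ * q := mul_le_mul_of_nonneg_right hD4 hq0.le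
        _ ≤ S.D ^ σ * S.D ^ σ := mul_le_mul_of_nonneg_left hqσ h2.le
    have h4 : S.D ^ (1 - 2 * σ) * (4 * q) ≤ S.D := by
      calc S.D ^ (1 - 2 * σ) * (4 * q) ≤ S.D ^ (1 - 2 * σ) * (S.D ^ σ * S.D ^ σ) :=
            mul_le_mul_of_nonneg_left h3 (Real.rpow_nonneg hD0.le _)
        _ = S.D := h1
    calc S.D ^ (1 - 2 * σ) ≤ S.D / (4 * q) := by
          rw [le_div_iff₀ (by positivity)]; exact h4
      _ ≤ D' := hlow
  have hx0x : x0 ≤ x' * (1 - 2 * σ) := by nlinarith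
  have hslack : S.D ^ x0 ≤ D' ^ x' := dil87_pow hD1 hpow hx'.le hx0x
  -- the ratio
  have hrat1 : q * D' / S.D ≤ 1 := by
    rw [div_le_one hD0]; exact hqD'
  have hrat4 : 1 / 4 ≤ q * D' / S.D := by
    rw [le_div_iff₀ hD0]; linarith
  have hrat0 : 0 ≤ q * D' / S.D := by positivity
  have eP : ∀ i, (Pool.Agent.Helper67.NX2.dil S c q r0 u' T').P i =
      S.P i * (q * D' / S.D) ^ (c i) := by
    intro i
    rw [hD']
    rfl
  have hQ0 : (0 : ℝ) ≤ (S.Q : ℝ) := Nat.cast_nonneg _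
  have hP0 : ∀ i, 0 ≤ S.P i := fun i =>
    le_trans (mul_nonneg hQ0 (Real.rpow_nonneg hD0.le _)) (hg.P1 i)
  have hPle : ∀ i, (Pool.Agent.Helper67.NX2.dil S c q r0 u' T').P i ≤ S.P i := by
    intro i
    rw [eP]
    calc S.P i * (q * D' / S.D) ^ (c i) ≤ S.P i * 1 :=
          mul_le_mul_of_nonneg_left (Real.rpow_le_one hrat0 hrat1 (hc0 i).le) (hP0 i)
      _ = S.P i := mul_one _
  have hPge : ∀ i, S.P i * 4 ^ (-c i) ≤ (Pool.Agent.Helper67.NX2.dil S c q r0 u' T').P i := by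
    intro i
    rw [eP]
    apply mul_le_mul_of_nonneg_left _ (hP0 i)
    calc (4 : ℝ) ^ (-c i) = (1 / 4) ^ (c i) := by
          rw [Real.rpow_neg (by norm_num), one_div, Real.inv_rpow (by norm_num)]
      _ ≤ (q * D' / S.D) ^ (c i) := Real.rpow_le_rpow (by norm_num) hrat4 (hc0 i).le
  refine ⟨⟨⟨?_, ?_, ?_, ?_, ?_, ?_, ?_, ?_, ?_, ?_, ?_⟩, ?_, ?_, ?_, ?_, ?_⟩, ?_, ?_, ?_⟩
  · -- ρ0
    show 0 ≤ (r0 + S.ρ) / q
    have := hg.ρ0
    positivity
  · -- ρ1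
    show (r0 + S.ρ) / q ≤ 1
    rw [div_le_one hq0]
    have := hg.ρ1
    linarith
  · -- Q1
    rw [eD, ← hD']
    show D' ^ (2 : ℝ) ≤ (S.Q : ℝ)
    exact le_trans (Real.rpow_le_rpow hD'pos.le hD'D (by norm_num)) hg.Q1
  · -- Q2
    rw [eD, ← hD']
    show (S.Q : ℝ) ≤ D' ^ (3 : ℝ)
    exact le_trans hIG.Q3 (dil87_pow hD1 hpow (by norm_num) (by nlinarith))
  · -- P1
    intro i
    rw [eD, ← hD', eP]
    show (S.Q : ℝ) * D' ^ (c i - x') ≤ _
    have h1 := hg.P1 i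
    have h2 : (S.Q : ℝ) * S.D ^ (c i - x0) * (q * D' / S.D) ^ (c i) =
        S.Q * ((S.D ^ x0)⁻¹ * (q * D') ^ (c i)) := by
      rw [Real.rpow_sub hD0, Real.div_rpow (by positivity) hD0.le]
      have h3 : S.D ^ (c i) ≠ 0 := (Real.rpow_pos_of_pos hD0 _).ne'
      have h4 : S.D ^ x0 ≠ 0 := (Real.rpow_pos_of_pos hD0 _).ne'
      field_simp
    calc (S.Q : ℝ) * D' ^ (c i - x') = S.Q * ((D' ^ x')⁻¹ * D' ^ (c i)) := by
          rw [Real.rpow_sub hD'pos]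
          ring
      _ ≤ S.Q * ((S.D ^ x0)⁻¹ * (q * D') ^ (c i)) := by
          apply mul_le_mul_of_nonneg_left _ hQ0
          apply mul_le_mul _ _ (Real.rpow_nonneg hD'pos.le _) (by positivity)
          · exact inv_anti₀ (Real.rpow_pos_of_pos hD0 _) hslack
          · exact Real.rpow_le_rpow hD'pos.le (by nlinarith) (hc0 i).le
      _ = (S.Q : ℝ) * S.D ^ (c i - x0) * (q * D' / S.D) ^ (c i) := h2.symm
      _ ≤ S.P i * (q * D' / S.D) ^ (c i) :=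
          mul_le_mul_of_nonneg_right h1 (Real.rpow_nonneg hrat0 _)
  · -- P2
    intro i
    rw [eD, ← hD', eP]
    show _ ≤ (S.Q : ℝ) * D' ^ (c i + x')
    have h1 := hg.P2 i
    have h2 : (S.Q : ℝ) * S.D ^ (c i + x0) * (q * D' / S.D) ^ (c i) =
        S.Q * ((S.D ^ x0 * (q : ℝ) ^ (c i)) * D' ^ (c i)) := by
      rw [Real.rpow_add hD0, Real.div_rpow (by positivity) hD0.le,
        Real.mul_rpow hq0.le hD'pos.le]
      have h3 : S.D ^ (c i) ≠ 0 := (Real.rpow_pos_of_pos hD0 _).ne'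
      field_simp
    have h5 : S.D ^ x0 * (q : ℝ) ^ (c i) ≤ D' ^ x' := by
      calc S.D ^ x0 * (q : ℝ) ^ (c i) ≤ S.D ^ x0 * (S.D ^ σ) ^ (c i) := by
            apply mul_le_mul_of_nonneg_left _ (Real.rpow_nonneg hD0.le _)
            exact Real.rpow_le_rpow hq0.le hqσ (hc0 i).le
        _ = S.D ^ (x0 + σ * c i) := by
            rw [← Real.rpow_mul hD0.le, ← Real.rpow_add hD0]
        _ ≤ D' ^ x' := by
            apply dil87_pow hD1 hpow hx'.le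
            have : σ * c i ≤ σ * M := mul_le_mul_of_nonneg_left (hM i) hσ.le
            nlinarith
    calc S.P i * (q * D' / S.D) ^ (c i)
        ≤ (S.Q : ℝ) * S.D ^ (c i + x0) * (q * D' / S.D) ^ (c i) :=
          mul_le_mul_of_nonneg_right h1 (Real.rpow_nonneg hrat0 _)
      _ = S.Q * ((S.D ^ x0 * (q : ℝ) ^ (c i)) * D' ^ (c i)) := h2
      _ ≤ S.Q * (D' ^ x' * D' ^ (c i)) := by
          apply mul_le_mul_of_nonneg_left _ hQ0
          exact mul_le_mul_of_nonneg_right h5 (Real.rpow_nonneg hD'pos.le _)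
      _ = (S.Q : ℝ) * D' ^ (c i + x') := by
          rw [Real.rpow_add hD'pos]; ring
  · -- N1
    intro i
    rw [eD, ← hD']
    calc (Pool.Agent.Helper67.NX2.dil S c q r0 u' T').P i ≤ S.P i := hPle i
      _ ≤ N * S.D ^ x0 := hg.N1 i
      _ ≤ N * D' ^ x' := mul_le_mul_of_nonneg_left hslack (Nat.cast_nonneg _)
  · exact hg.N2
  · -- u1
    rw [eD]
    show ((u' : ℝ) + T') / 2 ≤ (u' : ℝ)
    linarith
  · -- u2
    rw [eD]
    show (u' : ℝ) + T' ≤ 2 * (((u' : ℝ) + T') / 2)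
    linarith
  · -- T1
    rw [eD, ← hD']
    show D' ^ (1 - x') ≤ (T' : ℝ)
    rcases le_total x' 1 with h | h
    · calc D' ^ (1 - x') ≤ S.D ^ (1 - x') := Real.rpow_le_rpow hD'pos.le hD'D (by linarith)
        _ ≤ S.D ^ (1 - x' / 2) := Real.rpow_le_rpow_of_exponent_le hD1 (by linarith)
        _ ≤ T' := hT'
    · exact le_trans (Real.rpow_le_one_of_one_le_of_nonpos hD'1 (by linarith)) hT1'
  · -- Q3
    rw [eD, ← hD']
    show (S.Q : ℝ) ≤ D' ^ (5 / 2 + x')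
    exact le_trans hIG.Q3 (dil87_pow hD1 hpow (by linarith) (by nlinarith))
  · -- lam1
    exact Nat.one_le_iff_ne_zero.mpr (Nat.mul_ne_zero
      (Nat.one_le_iff_ne_zero.mp hIG.lam1) (Nat.one_le_iff_ne_zero.mp hq))
  · -- rho
    obtain ⟨r, hr⟩ := hIG.rho
    refine ⟨lam * r0 + r, ?_⟩
    show (r0 + S.ρ) / q * ((lam * q : ℕ) : ℝ) = ((lam * r0 + r : ℕ) : ℝ)
    push_cast
    rw [← hr]
    field_simp
  · -- Pint
    intro i d hd
    have h1 := hIG.Pint i d hd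
    rw [eP, eD, ← hD', h1, hd, Real.rpow_natCast]
    show (S.Q : ℝ) * (lam * S.D) ^ d * (q * D' / S.D) ^ d = (S.Q : ℝ) * (((lam * q : ℕ) : ℝ) * D') ^ d
    rw [mul_assoc, ← mul_pow]
    congr 2
    push_cast
    field_simp
  · exact hIG.prime
  · rw [eD, ← hD']; exact hlow
  · rw [eD, ← hD']; exact hup
  · exact fun i => ⟨hPge i, hPle i⟩

/-- Pigeonhole: windows of a residue class. -/
theorem exists_window (S : Sys m) (η : ℝ) (q J : ℕ) (hq : 1 ≤ q) (hJ : 1 ≤ J)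
    (hqJ : 4 * (q : ℝ) * J ≤ η * S.T) (G : ℕ → ℂ) (hG : ∀ k, ‖G k‖ ≤ 1)
    (h : η ≤ ‖𝔼 k ∈ S.I, G k‖) (hη : 0 < η) :
    ∃ r0 u' : ℕ, r0 < q ∧ S.u ≤ q * u' + r0 ∧ q * (u' + J) + r0 ≤ S.u + S.T ∧
      η / 2 ≤ ‖𝔼 j ∈ Ico u' (u' + J), G (q * j + r0)‖ := by
  have hq1 : (1 : ℝ) ≤ (q : ℝ) := by exact_mod_cast hq
  have hJ1 : (1 : ℝ) ≤ (J : ℝ) := by exact_mod_cast hJ
  have hqJ0 : (1 : ℝ) ≤ (q : ℝ) * J := by nlinarith
  have hT0 : (0 : ℝ) < (S.T : ℝ) := by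
    by_contra hcon
    have h1 : (0 : ℝ) ≤ (S.T : ℝ) := Nat.cast_nonneg _
    have h2 : (S.T : ℝ) = 0 := le_antisymm (not_lt.mp hcon) h1
    rw [h2] at hqJ
    nlinarith
  have hcard : (#S.I : ℝ) = S.T := by
    unfold Sys.I
    rw [Nat.card_Ico]
    simp
  -- the sum
  have hsum : η * S.T ≤ ‖∑ k ∈ S.I, G k‖ := by
    rw [Finset.expect_eq_sum_div_card, norm_div, Complex.norm_natCast, hcard,
      le_div_iff₀ hT0] at h
    exact h
  have hη1 : η ≤ 1 := by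
    have h1 : ‖∑ k ∈ S.I, G k‖ ≤ S.T := by
      calc ‖∑ k ∈ S.I, G k‖ ≤ ∑ k ∈ S.I, ‖G k‖ := norm_sum_le _ _
        _ ≤ ∑ k ∈ S.I, (1 : ℝ) := Finset.sum_le_sum fun k _ => hG k
        _ = S.T := by rw [Finset.sum_const, nsmul_eq_mul, mul_one, hcard]
    by_contra hcon
    have : (S.T : ℝ) < η * S.T := by nlinarith [not_le.mp hcon]
    linarith
  have hqJT : (q : ℝ) * J ≤ S.T := by nlinarith
  have hqJT' : q * J ≤ S.T := by exact_mod_cast hqJT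
  -- windows
  have hwin : ∀ j, j < J → ‖(∑ k ∈ S.I, G k) -
      ∑ k ∈ Ico S.u (S.u + (S.T - q * J)), G (k + q * j)‖ ≤ q * J := by
    intro j hj
    have hjq : q * j + (S.T - q * J) ≤ S.T := by
      have : q * j ≤ q * J := Nat.mul_le_mul_left _ hj.le
      omega
    have e1 : ∑ k ∈ Ico S.u (S.u + (S.T - q * J)), G (k + q * j) =
        ∑ k ∈ Ico (S.u + q * j) (S.u + (S.T - q * J) + q * j), G k := by
      rw [Finset.sum_Ico_add']
    have hsub : Ico (S.u + q * j) (S.u + (S.T - q * J) + q * j) ⊆ S.I := by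
      intro k hk
      unfold Sys.I
      rw [Finset.mem_Ico] at hk ⊢
      omega
    rw [e1, ← Finset.sum_sdiff hsub, add_sub_cancel_right]
    calc ‖∑ k ∈ S.I \ Ico (S.u + q * j) (S.u + (S.T - q * J) + q * j), G k‖
        ≤ ∑ k ∈ S.I \ Ico (S.u + q * j) (S.u + (S.T - q * J) + q * j), ‖G k‖ := norm_sum_le _ _
      _ ≤ ∑ k ∈ S.I \ Ico (S.u + q * j) (S.u + (S.T - q * J) + q * j), (1 : ℝ) :=
          Finset.sum_le_sum fun k _ => hG k
      _ = (#(S.I \ Ico (S.u + q * j) (S.u + (S.T - q * J) + q * j)) : ℝ) := by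
          rw [Finset.sum_const, nsmul_eq_mul, mul_one]
      _ = q * J := by
          rw [Finset.card_sdiff_of_subset hsub, Nat.card_Ico]
          unfold Sys.I
          rw [Nat.card_Ico]
          have e2 : S.u + S.T - S.u - (S.u + (S.T - q * J) + q * j - (S.u + q * j)) = q * J := by
            omega
          rw [e2]
          push_cast
          ring
  have hW : ‖(J : ℂ) * (∑ k ∈ S.I, G k) -
      ∑ k ∈ Ico S.u (S.u + (S.T - q * J)), ∑ j ∈ range J, G (k + q * j)‖ ≤ J * (q * J) := by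
    have e1 : (J : ℂ) * (∑ k ∈ S.I, G k) -
        ∑ k ∈ Ico S.u (S.u + (S.T - q * J)), ∑ j ∈ range J, G (k + q * j) =
        ∑ j ∈ range J, ((∑ k ∈ S.I, G k) -
          ∑ k ∈ Ico S.u (S.u + (S.T - q * J)), G (k + q * j)) := by
      rw [Finset.sum_sub_distrib, Finset.sum_const, card_range, nsmul_eq_mul, Finset.sum_comm]
    rw [e1]
    calc ‖∑ j ∈ range J, ((∑ k ∈ S.I, G k) -
          ∑ k ∈ Ico S.u (S.u + (S.T - q * J)), G (k + q * j))‖
        ≤ ∑ j ∈ range J, ‖(∑ k ∈ S.I, G k) -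
          ∑ k ∈ Ico S.u (S.u + (S.T - q * J)), G (k + q * j)‖ := norm_sum_le _ _
      _ ≤ ∑ j ∈ range J, ((q : ℝ) * J) :=
          Finset.sum_le_sum fun j hj => hwin j (Finset.mem_range.mp hj)
      _ = J * (q * J) := by rw [Finset.sum_const, card_range, nsmul_eq_mul]
  have hbig : 3 / 4 * η * J * S.T ≤
      ‖∑ k ∈ Ico S.u (S.u + (S.T - q * J)), ∑ j ∈ range J, G (k + q * j)‖ := by
    have h1 := norm_sub_norm_le ((J : ℂ) * (∑ k ∈ S.I, G k))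
      (∑ k ∈ Ico S.u (S.u + (S.T - q * J)), ∑ j ∈ range J, G (k + q * j))
    rw [norm_mul, Complex.norm_natCast] at h1
    have h2 : (J : ℝ) * (η * S.T) ≤ J * ‖∑ k ∈ S.I, G k‖ :=
      mul_le_mul_of_nonneg_left hsum (by linarith)
    have h3 : (J : ℝ) * (4 * q * J) ≤ J * (η * S.T) :=
      mul_le_mul_of_nonneg_left hqJ (by linarith)
    linarith
  -- a good window
  obtain ⟨k, hk, hkW⟩ : ∃ k ∈ Ico S.u (S.u + (S.T - q * J)),
      η / 2 * J ≤ ‖∑ j ∈ range J, G (k + q * j)‖ := by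
    by_contra hcon
    push Not at hcon
    have h1 : ‖∑ k ∈ Ico S.u (S.u + (S.T - q * J)), ∑ j ∈ range J, G (k + q * j)‖ ≤
        S.T * (η / 2 * J) := by
      calc ‖∑ k ∈ Ico S.u (S.u + (S.T - q * J)), ∑ j ∈ range J, G (k + q * j)‖
          ≤ ∑ k ∈ Ico S.u (S.u + (S.T - q * J)), ‖∑ j ∈ range J, G (k + q * j)‖ :=
            norm_sum_le _ _
        _ ≤ ∑ k ∈ Ico S.u (S.u + (S.T - q * J)), (η / 2 * J) :=
            Finset.sum_le_sum fun k hk => (hcon k hk).le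
        _ = ((S.T - q * J : ℕ) : ℝ) * (η / 2 * J) := by
            rw [Finset.sum_const, Nat.card_Ico, nsmul_eq_mul, Nat.add_sub_cancel_left]
        _ ≤ S.T * (η / 2 * J) := by
            apply mul_le_mul_of_nonneg_right _ (by positivity)
            exact_mod_cast Nat.sub_le _ _
    have h2 : 0 < η * J * S.T := by positivity
    linarith
  rw [Finset.mem_Ico] at hk
  have hkq : q * (k / q) + k % q = k := Nat.div_add_mod k q
  refine ⟨k % q, k / q, Nat.mod_lt _ (by omega), by omega, ?_, ?_⟩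
  · rw [mul_add]
    omega
  · have e1 : ∑ j ∈ Ico (k / q) (k / q + J), G (q * j + k % q) =
        ∑ j ∈ range J, G (k + q * j) := by
      rw [Finset.sum_Ico_eq_sum_range, Nat.add_sub_cancel_left]
      apply Finset.sum_congr rfl
      intro j _
      congr 1
      rw [mul_add]
      omega
    have hJ0 : (0 : ℝ) < (J : ℝ) := by linarith
    rw [Finset.expect_eq_sum_div_card, e1, Nat.card_Ico, Nat.add_sub_cancel_left, norm_div,
      Complex.norm_natCast, le_div_iff₀ hJ0]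
    exact hkW

end

end Pool.Agent.Helper67.NX2
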