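import Pool.Agent.Helper67.NX2.DefsB
import Pool.Agent.Helper55.NX2.AqBasic

/-! Project NX2, module B1: the analytic large sieve inequality (with the constant `17`). -/

set_option autoImplicit false

open Finset
open scoped BigOperators ComplexConjugate

namespace Pool.Agent.Helper67.NX2

open Pool.Agent.Helper57.NX

noncomputable section

/-- duality -/
theorem ls87_dual {ι : Type*} (P : Finset ι) (I : Finset ℕ) (u : ι → ℕ → ℂ) (B : ℝ)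
    (hB : 0 ≤ B) (h : ∀ c : ι → ℂ, ∑ n ∈ I, ‖∑ α ∈ P, c α * u α n‖ ^ 2 ≤ B * ∑ α ∈ P, ‖c α‖ ^ 2)
    (a : ℕ → ℂ) :
    ∑ α ∈ P, ‖∑ n ∈ I, a n * u α n‖ ^ 2 ≤ B * ∑ n ∈ I, ‖a n‖ ^ 2 := by
  obtain ⟨S, hS⟩ : ∃ S : ι → ℂ, S = fun α => ∑ n ∈ I, a n * u α n := ⟨_, rfl⟩
  obtain ⟨X, hX⟩ : ∃ X : ℝ, X = ∑ α ∈ P, ‖S α‖ ^ 2 := ⟨_, rfl⟩
  have e0 : ∑ α ∈ P, ‖∑ n ∈ I, a n * u α n‖ ^ 2 = X := by rw [hX, hS]
  rw [e0]
  have hX0 : 0 ≤ X := by rw [hX]; exact Finset.sum_nonneg fun α _ => sq_nonneg _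
  have hA0 : 0 ≤ ∑ n ∈ I, ‖a n‖ ^ 2 := Finset.sum_nonneg fun α _ => sq_nonneg _
  have hF := h (fun α => conj (S α))
  have e1 : ∑ α ∈ P, ‖conj (S α)‖ ^ 2 = X := by
    rw [hX]
    exact Finset.sum_congr rfl fun α _ => by rw [RCLike.norm_conj]
  rw [e1] at hF
  have e2 : (X : ℂ) = ∑ n ∈ I, a n * ∑ α ∈ P, conj (S α) * u α n := by
    calc (X : ℂ) = ∑ α ∈ P, conj (S α) * S α := by
          rw [hX]
          push_cast
          refine Finset.sum_congr rfl fun α _ => ?_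
          rw [mul_comm, Complex.mul_conj, Complex.normSq_eq_norm_sq]
          push_cast
          rfl
      _ = ∑ α ∈ P, ∑ n ∈ I, a n * (conj (S α) * u α n) := by
          refine Finset.sum_congr rfl fun α _ => ?_
          nth_rewrite 2 [hS]
          rw [Finset.mul_sum]
          exact Finset.sum_congr rfl fun n _ => by ring
      _ = ∑ n ∈ I, a n * ∑ α ∈ P, conj (S α) * u α n := by
          rw [Finset.sum_comm]
          exact Finset.sum_congr rfl fun n _ => by rw [Finset.mul_sum]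
  have e3 : X ≤ ∑ n ∈ I, ‖a n‖ * ‖∑ α ∈ P, conj (S α) * u α n‖ := by
    calc X = ‖(X : ℂ)‖ := by rw [Complex.norm_real, Real.norm_of_nonneg hX0]
      _ = ‖∑ n ∈ I, a n * ∑ α ∈ P, conj (S α) * u α n‖ := by rw [← e2]
      _ ≤ ∑ n ∈ I, ‖a n * ∑ α ∈ P, conj (S α) * u α n‖ := norm_sum_le _ _
      _ = ∑ n ∈ I, ‖a n‖ * ‖∑ α ∈ P, conj (S α) * u α n‖ :=
          Finset.sum_congr rfl fun n _ => norm_mul _ _
  have e4 : X ^ 2 ≤ (∑ n ∈ I, ‖a n‖ ^ 2) * (B * X) := by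
    calc X ^ 2 ≤ (∑ n ∈ I, ‖a n‖ * ‖∑ α ∈ P, conj (S α) * u α n‖) ^ 2 :=
          pow_le_pow_left₀ hX0 e3 2
      _ ≤ (∑ n ∈ I, ‖a n‖ ^ 2) * ∑ n ∈ I, ‖∑ α ∈ P, conj (S α) * u α n‖ ^ 2 :=
          Finset.sum_mul_sq_le_sq_mul_sq _ _ _
      _ ≤ (∑ n ∈ I, ‖a n‖ ^ 2) * (B * X) := mul_le_mul_of_nonneg_left hF hA0
  rcases hX0.eq_or_lt with h0 | h0
  · rw [← h0]; positivity
  · have : X * X ≤ (B * ∑ n ∈ I, ‖a n‖ ^ 2) * X := by nlinarith
    exact le_of_mul_le_mul_right this h0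

theorem ls87_e_add (x y : ℝ) : e (x + y) = e x * e y := by
  unfold e
  rw [← Complex.exp_add]
  congr 1
  push_cast
  ring

theorem ls87_e_conj (x : ℝ) : conj (e x) = e (-x) := by
  unfold e
  rw [← Complex.exp_conj]
  congr 1
  have h : (2 * Real.pi * x * Complex.I : ℂ) = ((2 * Real.pi * x : ℝ) : ℂ) * Complex.I := by
    push_cast; ring
  rw [h, map_mul, Complex.conj_ofReal, Complex.conj_I]
  push_cast
  ring

theorem ls87_norm_e (x : ℝ) : ‖e x‖ = 1 := by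
  unfold e
  have : (2 * Real.pi * x * Complex.I : ℂ) = ((2 * Real.pi * x : ℝ) : ℂ) * Complex.I := by
    push_cast; ring
  rw [this, Complex.norm_exp_ofReal_mul_I]

/-- the sum over `a < L` -/
theorem ls87_geom (θ : ℝ) (L : ℕ) (hL : 1 ≤ L) (h : 0 < dint θ) :
    ‖∑ t ∈ range L, e (θ * t)‖ ≤ 1 / (2 * dint θ) := by
  have h1 := norm_expect_e_le θ L hL h
  have hL0 : (0 : ℝ) < (L : ℝ) := by exact_mod_cast hL
  rw [Finset.expect_eq_sum_div_card, card_range, norm_div, Complex.norm_natCast,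
    div_le_iff₀ hL0] at h1
  refine h1.trans (le_of_eq ?_)
  field_simp

theorem ls87_geom' (θ : ℝ) (L : ℕ) : ‖∑ t ∈ range L, e (θ * t)‖ ≤ L := by
  calc ‖∑ t ∈ range L, e (θ * t)‖ ≤ ∑ t ∈ range L, ‖e (θ * t)‖ := norm_sum_le _ _
    _ = L := by simp [ls87_norm_e]

/-- one side of the separated points -/
theorem ls87_half (Q : Finset ℝ) (k : ℝ → ℕ) (hk : ∀ α ∈ Q, ∀ β ∈ Q, k α = k β → α = β)
    (h : ℝ → ℝ) (A B : ℝ) (hA : 0 ≤ A) (hB : 0 ≤ B) (h0 : ∀ β ∈ Q, k β = 0 → h β ≤ A)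
    (h1 : ∀ β ∈ Q, 1 ≤ k β → h β ≤ B / (k β : ℝ) ^ 2) :
    ∑ β ∈ Q, h β ≤ A + 2 * B := by
  obtain ⟨G, hG⟩ : ∃ G : ℕ → ℝ, G = fun n : ℕ => if n = 0 then A else B / (n : ℝ) ^ 2 := ⟨_, rfl⟩
  have hG0 : ∀ n, 0 ≤ G n := by
    intro n
    rw [hG]
    dsimp only
    split_ifs
    · exact hA
    · positivity
  have step1 : ∑ β ∈ Q, h β ≤ ∑ β ∈ Q, G (k β) := by
    refine Finset.sum_le_sum fun β hβ => ?_
    rw [hG]
    dsimp only
    split_ifs with hz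
    · exact h0 β hβ hz
    · exact h1 β hβ (Nat.one_le_iff_ne_zero.mpr hz)
  have step2 : ∑ β ∈ Q, G (k β) = ∑ n ∈ Q.image k, G n := by
    rw [Finset.sum_image]
    intro α hα β hβ hab
    exact hk α hα β hβ hab
  obtain ⟨M, hM⟩ : ∃ M : ℕ, ∀ n ∈ Q.image k, n < M + 2 := by
    refine ⟨(Q.image k).sup id, fun n hn => ?_⟩
    have : n ≤ (Q.image k).sup id := Finset.le_sup (f := id) hn
    omega
  have step3 : ∑ n ∈ Q.image k, G n ≤ ∑ n ∈ range (M + 2), G n :=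
    Finset.sum_le_sum_of_subset_of_nonneg (fun n hn => Finset.mem_range.mpr (hM n hn))
      fun n _ _ => hG0 n
  have step4 : ∀ M : ℕ, ∑ n ∈ range (M + 2), G n ≤ A + B * (2 - 1 / ((M : ℝ) + 1)) := by
    intro M
    induction M with
    | zero =>
      rw [Finset.sum_range_succ, Finset.sum_range_succ, Finset.sum_range_zero, hG]
      norm_num
    | succ M ih =>
      rw [Finset.sum_range_succ]
      have e1 : G (M + 2) = B / ((M : ℝ) + 2) ^ 2 := by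
        rw [hG]; simp
      rw [show M + 1 + 1 = M + 2 from rfl, e1]
      push_cast
      have hM0 : (0 : ℝ) ≤ (M : ℝ) := Nat.cast_nonneg _
      have e2 : 1 / ((M : ℝ) + 2) ^ 2 ≤ 1 / ((M : ℝ) + 1) - 1 / ((M : ℝ) + 1 + 1) := by
        rw [div_sub_div _ _ (by positivity) (by positivity), div_le_div_iff₀ (by positivity)
          (by positivity)]
        nlinarith
      have e3 := mul_le_mul_of_nonneg_left e2 hB
      rw [mul_one_div] at e3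
      linarith
  have hM0 : (0 : ℝ) ≤ (M : ℝ) := Nat.cast_nonneg _
  have step5 : B * (2 - 1 / ((M : ℝ) + 1)) ≤ 2 * B := by
    have : 0 ≤ 1 / ((M : ℝ) + 1) := by positivity
    nlinarith
  linarith [step4 M]

/-- separated points, `h` bounded by `L ^ 2` and by `1 / (4 dint (α - β) ^ 2)` -/
theorem ls87_sep (P : Finset ℝ) (Δ : ℝ) (hΔ : 0 < Δ)
    (hP : ∀ α ∈ P, ∀ β ∈ P, α ≠ β → Δ ≤ dint (α - β)) (α : ℝ) (L : ℝ)
    (h : ℝ → ℝ) (hL : ∀ β, h β ≤ L ^ 2)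
    (hd : ∀ β, 0 < dint (α - β) → h β ≤ 1 / (4 * dint (α - β) ^ 2)) :
    ∑ β ∈ P, h β ≤ 2 * L ^ 2 + 1 / Δ ^ 2 := by
  obtain ⟨r, hr⟩ : ∃ r : ℝ → ℝ, r = fun β => (α - β) - round (α - β) := ⟨_, rfl⟩
  have hrd : ∀ β, dint (α - β) = |r β| := fun β => by rw [hr]; rfl
  -- two points with close values of `r` are equal
  have hinj : ∀ β ∈ P, ∀ γ ∈ P, |r β - r γ| < Δ → β = γ := by
    intro β hβ γ hγ hlt
    by_contra hne
    have h1 := hP γ hγ β hβ (Ne.symm hne)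
    have h2 := dint_le_abs_sub (γ - β) (round (α - β) - round (α - γ))
    have h3 : (γ - β) - ((round (α - β) - round (α - γ) : ℤ) : ℝ) = r β - r γ := by
      rw [hr]; push_cast; ring
    rw [h3] at h2
    linarith
  have hfloor : ∀ x y : ℝ, 0 ≤ x → 0 ≤ y → ⌊x / Δ⌋₊ = ⌊y / Δ⌋₊ → |x - y| < Δ := by
    intro x y hx hy hxy
    have h1 := Nat.floor_le (div_nonneg hx hΔ.le)
    have h2 := Nat.lt_floor_add_one (x / Δ)
    have h3 := Nat.floor_le (div_nonneg hy hΔ.le)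
    have h4 := Nat.lt_floor_add_one (y / Δ)
    rw [hxy] at h1 h2
    have h5 : |x / Δ - y / Δ| < 1 := by rw [abs_lt]; constructor <;> linarith
    rw [← sub_div, abs_div, abs_of_pos hΔ, div_lt_one hΔ] at h5
    exact h5
  have hbig : ∀ β, 1 ≤ ⌊|r β| / Δ⌋₊ → h β ≤ 1 / (4 * Δ ^ 2) / (⌊|r β| / Δ⌋₊ : ℝ) ^ 2 := by
    intro β hβ
    have h1 := Nat.floor_le (div_nonneg (abs_nonneg (r β)) hΔ.le)
    have h2 : (1 : ℝ) ≤ (⌊|r β| / Δ⌋₊ : ℝ) := by exact_mod_cast hβ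
    obtain ⟨k, hk⟩ : ∃ k : ℝ, k = (⌊|r β| / Δ⌋₊ : ℝ) := ⟨_, rfl⟩
    rw [← hk] at h1 h2 ⊢
    rw [le_div_iff₀ hΔ] at h1
    have h3 : 0 < dint (α - β) := by rw [hrd]; nlinarith
    refine (hd β h3).trans ?_
    rw [hrd, div_div]
    apply one_div_le_one_div_of_le (by positivity)
    have : (k * Δ) ^ 2 ≤ |r β| ^ 2 := pow_le_pow_left₀ (by positivity) h1 2
    nlinarith
  have hL2 : 0 ≤ L ^ 2 := sq_nonneg L
  have hB : 0 ≤ 1 / (4 * Δ ^ 2) := by positivity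
  rw [← Finset.sum_filter_add_sum_filter_not P (fun β => 0 ≤ r β)]
  have p1 := ls87_half (P.filter (fun β => 0 ≤ r β)) (fun β => ⌊|r β| / Δ⌋₊) (by
    intro β hβ γ hγ hk
    rw [Finset.mem_filter] at hβ hγ
    have h1 := hfloor _ _ (abs_nonneg _) (abs_nonneg _) hk
    rw [abs_of_nonneg hβ.2, abs_of_nonneg hγ.2] at h1
    exact hinj β hβ.1 γ hγ.1 h1) h (L ^ 2) (1 / (4 * Δ ^ 2)) hL2 hB (fun β _ _ => hL β)
    (fun β _ hk => hbig β hk)
  have p2 := ls87_half (P.filter (fun β => ¬ 0 ≤ r β)) (fun β => ⌊|r β| / Δ⌋₊) (by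
    intro β hβ γ hγ hk
    rw [Finset.mem_filter] at hβ hγ
    have h1 := hfloor _ _ (abs_nonneg _) (abs_nonneg _) hk
    rw [abs_of_neg (not_le.mp hβ.2), abs_of_neg (not_le.mp hγ.2)] at h1
    refine hinj β hβ.1 γ hγ.1 ?_
    rw [← abs_neg]
    have : -(r β - r γ) = -r β - -r γ := by ring
    rw [this]
    exact h1) h (L ^ 2) (1 / (4 * Δ ^ 2)) hL2 hB (fun β _ _ => hL β)
    (fun β _ hk => hbig β hk)
  have e1 : L ^ 2 + 2 * (1 / (4 * Δ ^ 2)) + (L ^ 2 + 2 * (1 / (4 * Δ ^ 2))) =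
      2 * L ^ 2 + 1 / Δ ^ 2 := by
    field_simp
    ring
  linarith

/-- the dual inequality, with the double average -/
theorem ls87_double (P : Finset ℝ) (Δ : ℝ) (hΔ : 0 < Δ)
    (hP : ∀ α ∈ P, ∀ β ∈ P, α ≠ β → Δ ≤ dint (α - β)) (N0 L : ℕ) (hL : 1 ≤ L) (c : ℝ → ℂ) :
    ∑ b ∈ range L, ∑ a ∈ range L,
      ‖∑ α ∈ P, c α * e (α * ((N0 : ℝ) + a - b))‖ ^ 2 ≤
      (2 * (L : ℝ) ^ 2 + 1 / Δ ^ 2) * ∑ α ∈ P, ‖c α‖ ^ 2 := by
  obtain ⟨K, hK⟩ : ∃ K : ℝ → ℝ, K = fun θ => ‖∑ t ∈ range L, e (θ * t)‖ := ⟨_, rfl⟩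
  obtain ⟨X, hX⟩ : ∃ X : ℝ, X = ∑ b ∈ range L, ∑ a ∈ range L,
      ‖∑ α ∈ P, c α * e (α * ((N0 : ℝ) + a - b))‖ ^ 2 := ⟨_, rfl⟩
  rw [← hX]
  have hX0 : 0 ≤ X := by
    rw [hX]; exact Finset.sum_nonneg fun _ _ => Finset.sum_nonneg fun _ _ => sq_nonneg _
  have hKneg : ∀ θ, K (-θ) = K θ := by
    intro θ
    rw [hK]
    dsimp only
    rw [← RCLike.norm_conj, map_sum]
    congr 1
    refine Finset.sum_congr rfl fun t _ => ?_
    rw [ls87_e_conj]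
    congr 1
    ring
  have e1 : (X : ℂ) = ∑ α ∈ P, ∑ β ∈ P, c α * conj (c β) * e ((α - β) * N0) *
      ((∑ a ∈ range L, e ((α - β) * a)) * ∑ b ∈ range L, e (-(α - β) * b)) := by
    have e2 : ∀ a b : ℕ, ((‖∑ α ∈ P, c α * e (α * ((N0 : ℝ) + a - b))‖ ^ 2 : ℝ) : ℂ) =
        ∑ α ∈ P, ∑ β ∈ P, c α * conj (c β) * e ((α - β) * N0) *
          (e ((α - β) * a) * e (-(α - β) * b)) := by
      intro a b
      rw [← Complex.normSq_eq_norm_sq, ← Complex.mul_conj, map_sum, Finset.sum_mul_sum]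
      refine Finset.sum_congr rfl fun α _ => Finset.sum_congr rfl fun β _ => ?_
      rw [map_mul, ls87_e_conj]
      have e3 : e ((α - β) * N0) * (e ((α - β) * a) * e (-(α - β) * b)) =
          e (α * ((N0 : ℝ) + a - b)) * e (-(β * ((N0 : ℝ) + a - b))) := by
        rw [← ls87_e_add, ← ls87_e_add, ← ls87_e_add]
        congr 1
        ring
      calc c α * e (α * ((N0 : ℝ) + a - b)) * (conj (c β) * e (-(β * ((N0 : ℝ) + a - b))))
          = c α * conj (c β) * (e (α * ((N0 : ℝ) + a - b)) * e (-(β * ((N0 : ℝ) + a - b)))) := by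
            ring
        _ = c α * conj (c β) * e ((α - β) * N0) * (e ((α - β) * a) * e (-(α - β) * b)) := by
            rw [← e3]; ring
    calc (X : ℂ) = ∑ b ∈ range L, ∑ a ∈ range L, ∑ α ∈ P, ∑ β ∈ P,
          c α * conj (c β) * e ((α - β) * N0) * (e ((α - β) * a) * e (-(α - β) * b)) := by
          rw [hX]
          push_cast
          refine Finset.sum_congr rfl fun b _ => Finset.sum_congr rfl fun a _ => ?_
          rw [← e2 a b]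
          push_cast
          rfl
      _ = ∑ b ∈ range L, ∑ α ∈ P, ∑ a ∈ range L, ∑ β ∈ P,
          c α * conj (c β) * e ((α - β) * N0) * (e ((α - β) * a) * e (-(α - β) * b)) :=
          Finset.sum_congr rfl fun b _ => Finset.sum_comm
      _ = ∑ α ∈ P, ∑ b ∈ range L, ∑ a ∈ range L, ∑ β ∈ P,
          c α * conj (c β) * e ((α - β) * N0) * (e ((α - β) * a) * e (-(α - β) * b)) :=
          Finset.sum_comm
      _ = ∑ α ∈ P, ∑ β ∈ P, c α * conj (c β) * e ((α - β) * N0) *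
          ((∑ a ∈ range L, e ((α - β) * a)) * ∑ b ∈ range L, e (-(α - β) * b)) := by
          refine Finset.sum_congr rfl fun α _ => ?_
          rw [Finset.sum_congr rfl fun b _ => Finset.sum_comm, Finset.sum_comm]
          refine Finset.sum_congr rfl fun β _ => ?_
          rw [Finset.sum_mul_sum, Finset.mul_sum, Finset.sum_comm]
          refine Finset.sum_congr rfl fun a _ => ?_
          rw [Finset.mul_sum]
  have e2 : X ≤ ∑ α ∈ P, ∑ β ∈ P, ‖c α‖ * ‖c β‖ * K (α - β) ^ 2 := by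
    calc X = ‖(X : ℂ)‖ := by rw [Complex.norm_real, Real.norm_of_nonneg hX0]
      _ ≤ ∑ α ∈ P, ∑ β ∈ P, ‖c α * conj (c β) * e ((α - β) * N0) *
          ((∑ a ∈ range L, e ((α - β) * a)) * ∑ b ∈ range L, e (-(α - β) * b))‖ := by
          rw [e1]
          exact (norm_sum_le _ _).trans (Finset.sum_le_sum fun α _ => norm_sum_le _ _)
      _ = ∑ α ∈ P, ∑ β ∈ P, ‖c α‖ * ‖c β‖ * K (α - β) ^ 2 := by
          refine Finset.sum_congr rfl fun α _ => Finset.sum_congr rfl fun β _ => ?_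
          rw [norm_mul, norm_mul, norm_mul, norm_mul, RCLike.norm_conj, ls87_norm_e, mul_one]
          have h1 : ‖∑ b ∈ range L, e (-(α - β) * b)‖ = K (α - β) := by
            rw [← hKneg, hK]
          rw [h1, sq]
          congr 1
          rw [hK]
  have e3 : ∑ α ∈ P, ∑ β ∈ P, ‖c α‖ * ‖c β‖ * K (α - β) ^ 2 ≤
      ∑ α ∈ P, ∑ β ∈ P, ‖c α‖ ^ 2 * K (α - β) ^ 2 := by
    have s1 : ∑ α ∈ P, ∑ β ∈ P, ‖c β‖ ^ 2 * K (α - β) ^ 2 =
        ∑ α ∈ P, ∑ β ∈ P, ‖c α‖ ^ 2 * K (α - β) ^ 2 := by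
      rw [Finset.sum_comm]
      refine Finset.sum_congr rfl fun α _ => Finset.sum_congr rfl fun β _ => ?_
      rw [← hKneg (α - β), neg_sub]
    have s2 : ∑ α ∈ P, ∑ β ∈ P, ‖c α‖ * ‖c β‖ * K (α - β) ^ 2 ≤
        ∑ α ∈ P, ∑ β ∈ P, (1 / 2 * (‖c α‖ ^ 2 * K (α - β) ^ 2) +
          1 / 2 * (‖c β‖ ^ 2 * K (α - β) ^ 2)) := by
      refine Finset.sum_le_sum fun α _ => Finset.sum_le_sum fun β _ => ?_
      nlinarith [mul_nonneg (sq_nonneg (‖c α‖ - ‖c β‖)) (sq_nonneg (K (α - β)))]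
    have s3 : ∑ α ∈ P, ∑ β ∈ P, (1 / 2 * (‖c α‖ ^ 2 * K (α - β) ^ 2) +
          1 / 2 * (‖c β‖ ^ 2 * K (α - β) ^ 2)) =
        1 / 2 * (∑ α ∈ P, ∑ β ∈ P, ‖c α‖ ^ 2 * K (α - β) ^ 2) +
        1 / 2 * (∑ α ∈ P, ∑ β ∈ P, ‖c β‖ ^ 2 * K (α - β) ^ 2) := by
      simp only [Finset.sum_add_distrib, Finset.mul_sum]
    rw [s1] at s3
    linarith
  refine (e2.trans e3).trans ?_
  rw [Finset.mul_sum]
  refine Finset.sum_le_sum fun α _ => ?_
  rw [← Finset.mul_sum, mul_comm]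
  refine mul_le_mul_of_nonneg_right ?_ (sq_nonneg _)
  refine ls87_sep P Δ hΔ hP α L (fun β => K (α - β) ^ 2) (fun β => ?_) (fun β hβ => ?_)
  · have h1 := ls87_geom' (α - β) L
    have h2 : K (α - β) ≤ L := by rw [hK]; exact h1
    have h3 : 0 ≤ K (α - β) := by rw [hK]; exact norm_nonneg _
    exact pow_le_pow_left₀ h3 h2 2
  · have h1 := ls87_geom (α - β) L hL hβ
    have h2 : K (α - β) ≤ 1 / (2 * dint (α - β)) := by rw [hK]; exact h1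
    have h3 : 0 ≤ K (α - β) := by rw [hK]; exact norm_nonneg _
    calc K (α - β) ^ 2 ≤ (1 / (2 * dint (α - β))) ^ 2 := pow_le_pow_left₀ h3 h2 2
      _ = 1 / (4 * dint (α - β) ^ 2) := by rw [div_pow, mul_pow]; norm_num

theorem large_sieve : ∃ C : ℝ, 0 < C ∧ ∀ (N0 N : ℕ) (Δ : ℝ), 1 ≤ N → 0 < Δ → Δ ≤ 1 →
    ∀ P : Finset ℝ, (∀ α ∈ P, ∀ β ∈ P, α ≠ β → Δ ≤ dint (α - β)) → ∀ a : ℕ → ℂ,
    ∑ α ∈ P, ‖∑ n ∈ Ico N0 (N0 + N), a n * e (α * n)‖ ^ 2 ≤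
      C * (N + 1 / Δ) * ∑ n ∈ Ico N0 (N0 + N), ‖a n‖ ^ 2 := by
  refine ⟨17, by norm_num, ?_⟩
  intro N0 N Δ hN hΔ hΔ1 P hP a
  have hΔi : 1 ≤ 1 / Δ := by rw [le_div_iff₀ hΔ]; linarith
  refine ls87_dual P (Ico N0 (N0 + N)) (fun α n => e (α * n)) (17 * (N + 1 / Δ)) (by positivity)
    (fun c => ?_) a
  -- the length
  obtain ⟨N1, hN1⟩ : ∃ N1 : ℕ, N1 = N + ⌈1 / Δ⌉₊ := ⟨_, rfl⟩
  have h1 : (1 / Δ : ℝ) ≤ (⌈1 / Δ⌉₊ : ℝ) := Nat.le_ceil _
  have h2 : (⌈1 / Δ⌉₊ : ℝ) < 1 / Δ + 1 := Nat.ceil_lt_add_one (by positivity)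
  have h3 : (N1 : ℝ) = N + (⌈1 / Δ⌉₊ : ℝ) := by rw [hN1]; push_cast; rfl
  have hN1' : 1 / Δ ≤ (N1 : ℝ) := by rw [h3]; linarith [Nat.cast_nonneg (α := ℝ) N]
  have hN1pos : (0 : ℝ) < (N1 : ℝ) := by linarith
  have hNN1 : N ≤ N1 := by omega
  have hD := ls87_double P Δ hΔ hP N0 (2 * N1) (by omega) c
  -- the left side
  have hlow : (N1 : ℝ) * ∑ n ∈ Ico N0 (N0 + N), ‖∑ α ∈ P, c α * e (α * n)‖ ^ 2 ≤
      ∑ b ∈ range (2 * N1), ∑ a ∈ range (2 * N1),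
        ‖∑ α ∈ P, c α * e (α * ((N0 : ℝ) + a - b))‖ ^ 2 := by
    calc (N1 : ℝ) * ∑ n ∈ Ico N0 (N0 + N), ‖∑ α ∈ P, c α * e (α * n)‖ ^ 2
        = ∑ b ∈ range N1, ∑ n ∈ Ico N0 (N0 + N), ‖∑ α ∈ P, c α * e (α * n)‖ ^ 2 := by
          rw [Finset.sum_const, card_range, nsmul_eq_mul]
      _ ≤ ∑ b ∈ range N1, ∑ a ∈ range (2 * N1),
            ‖∑ α ∈ P, c α * e (α * ((N0 : ℝ) + a - b))‖ ^ 2 := by
          refine Finset.sum_le_sum fun b hb => ?_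
          rw [Finset.mem_range] at hb
          have e1 : ∑ n ∈ Ico N0 (N0 + N), ‖∑ α ∈ P, c α * e (α * n)‖ ^ 2 =
              ∑ a ∈ Ico b (b + N), ‖∑ α ∈ P, c α * e (α * ((N0 : ℝ) + a - b))‖ ^ 2 := by
            rw [Finset.sum_Ico_eq_sum_range, Finset.sum_Ico_eq_sum_range,
              Nat.add_sub_cancel_left, Nat.add_sub_cancel_left]
            refine Finset.sum_congr rfl fun t _ => ?_
            congr 2
            refine Finset.sum_congr rfl fun α _ => ?_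
            congr 3
            push_cast
            ring
          rw [e1]
          refine Finset.sum_le_sum_of_subset_of_nonneg (fun t ht => ?_) fun _ _ _ => sq_nonneg _
          rw [Finset.mem_Ico] at ht
          rw [Finset.mem_range]
          omega
      _ ≤ ∑ b ∈ range (2 * N1), ∑ a ∈ range (2 * N1),
            ‖∑ α ∈ P, c α * e (α * ((N0 : ℝ) + a - b))‖ ^ 2 := by
          refine Finset.sum_le_sum_of_subset_of_nonneg (fun t ht => ?_)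
            fun _ _ _ => Finset.sum_nonneg fun _ _ => sq_nonneg _
          rw [Finset.mem_range] at ht ⊢
          omega
  have hS0 : 0 ≤ ∑ α ∈ P, ‖c α‖ ^ 2 := Finset.sum_nonneg fun _ _ => sq_nonneg _
  have hfin := hlow.trans hD
  push_cast at hfin
  have hΔ2 : 1 / Δ ^ 2 ≤ N1 * (1 / Δ) := by
    have : 1 / Δ ^ 2 = (1 / Δ) * (1 / Δ) := by field_simp
    rw [this]
    exact mul_le_mul_of_nonneg_right hN1' (by positivity)
  have hC : 2 * (2 * (N1 : ℝ)) ^ 2 + 1 / Δ ^ 2 ≤ N1 * (17 * (N + 1 / Δ)) := by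
    have : 2 * (2 * (N1 : ℝ)) ^ 2 = N1 * (8 * N1) := by ring
    rw [this]
    have h8 : 8 * (N1 : ℝ) + 1 / Δ ≤ 17 * (N + 1 / Δ) := by
      rw [h3]
      have hNr : (1 : ℝ) ≤ (N : ℝ) := by exact_mod_cast hN
      linarith
    nlinarith [mul_le_mul_of_nonneg_left h8 hN1pos.le]
  have hfin2 : (N1 : ℝ) * ∑ n ∈ Ico N0 (N0 + N), ‖∑ α ∈ P, c α * e (α * n)‖ ^ 2 ≤
      N1 * (17 * (N + 1 / Δ) * ∑ α ∈ P, ‖c α‖ ^ 2) := by
    refine hfin.trans ((mul_le_mul_of_nonneg_right hC hS0).trans (le_of_eq ?_))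
    ring
  exact le_of_mul_le_mul_left hfin2 hN1pos

end

end Pool.Agent.Helper67.NX2
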